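import Pool.Agent.Lib.MP_fa837f_gt.P2.Defs
import Pool.Agent.Lib.MP_fa837f_gt.Bridge

/-!
Project P2 (exponents `2 < p ≤ 5/2`): the interface.  Every `...Statement` is proved in one module.
The proofs are in `Paper.md`.
-/

set_option autoImplicit false

open MeasureTheory Matrix Set Filter Topology

namespace Pool.Agent.Lib.MP_fa837f_gt.P2

/-! ## Part W: weights -/

/-- Facts on `β`. -/
structure BFacts {n k : ℕ} (m : Fin n → Fin k → ℝ) (r : Fin n → ℝ) : Prop where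
  posdef : (RR m r).PosDef
  symm : ∀ i j, be m r i j = be m r j i
  proj : ∀ i l, ∑ j, be m r i j * r j * be m r j l = be m r i l
  repr : ∀ i (x : Fin k → ℝ), ∑ j, be m r i j * r j * (m j ⬝ᵥ x) = m i ⬝ᵥ x
  inv : ∀ a b, (RR m r)⁻¹ a b = ∑ i, r i * bb m r i a * bb m r i b
  res : ∀ a b, ∑ i, r i * bb m r i a * m i b = if a = b then 1 else 0
  brep : ∀ i a, bb m r i a = ∑ j, r j * be m r i j * bb m r j a
  nonneg : ∀ i, 0 ≤ be m r i i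
  le1 : ∀ i, r i * be m r i i ≤ 1
  cs : ∀ i j, be m r i j ^ 2 ≤ be m r i i * be m r j j

/-- WA. -/
def WaStatement : Prop :=
  ∀ (n k : ℕ) (m : Fin n → Fin k → ℝ) (r : Fin n → ℝ), Spans m → (∀ i, 0 < r i) → BFacts m r

/-- WS: the inequalities of Schur type. -/
def WsStatement : Prop :=
  ∀ (n k : ℕ) (m : Fin n → Fin k → ℝ) (r : Fin n → ℝ), Spans m → (∀ i, 0 < r i) →
    ∀ (κ : Type) [Fintype κ] (V : Fin n → κ → ℝ),
      0 ≤ ∑ i, ∑ j, be m r i j * (V i ⬝ᵥ V j) ∧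
      ∑ i, ∑ j, be m r i j * (V i ⬝ᵥ V j) ≤ ∑ i, (V i ⬝ᵥ V i) / r i ∧
      0 ≤ ∑ i, ∑ j, be m r i j ^ 2 * (V i ⬝ᵥ V j) ∧
      ∑ i, ∑ j, be m r i j ^ 2 * (V i ⬝ᵥ V j) ≤ ∑ i, be m r i i * (V i ⬝ᵥ V i) / r i

/-- Facts on `α`. -/
structure AFacts {n k : ℕ} (m : Fin n → Fin k → ℝ) (τ r : Fin n → ℝ) : Prop where
  alr : ∀ i l, ∑ j, al m τ r i j * r j * be m r j l = al m τ r i l
  alz : ∀ i l, ∑ j, be m r i j * r j * al m τ r j l = 0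
  alsq : ∀ i l, ∑ j, al m τ r i j * r j * al m τ r j l = 0
  altt : ∑ i, ∑ j, r i * r j * al m τ r i j ^ 2 = tt m τ r
  nntt : ∑ i, nn m τ r i = 2 * tt m τ r
  nn0 : ∀ i, 0 ≤ nn m τ r i
  nnb : ∀ i, ∑ j, r i * r j * (al m τ r i j + al m τ r j i) ^ 2 = nn m τ r i
  alx : ∀ i (x : Fin k → ℝ), ∑ j, al m τ r i j * r j * (m j ⬝ᵥ x) =
    τ i * (m i ⬝ᵥ x) - ∑ j, be m r i j * (τ j * r j) * (m j ⬝ᵥ x)
  ab1 : ∀ i, |r i * al m τ r i i| ≤ 2 * ∑ j, |τ j|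
  ab2 : |aa m τ r| ≤ ∑ j, |τ j|

/-- WB. -/
def WbStatement : Prop :=
  ∀ (n k : ℕ) (m : Fin n → Fin k → ℝ) (τ r : Fin n → ℝ), Spans m → (∀ i, 0 < r i) →
    AFacts m τ r

/-- The coordinate functionals of `Fin n → ℝ`. -/
abbrev prj {n : ℕ} (l : Fin n) : (Fin n → ℝ) →L[ℝ] ℝ := ContinuousLinearMap.proj l

/-- WD: derivatives with respect to the weights, first part. -/
def WdStatement : Prop :=
  ∀ (n k : ℕ) (m : Fin n → Fin k → ℝ), Spans m →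
    (ContDiff ℝ (⊤ : ℕ∞) fun x : Fin n → ℝ => (RR m x).det) ∧
    (∀ a b, ContDiffOn ℝ (⊤ : ℕ∞) (fun x : Fin n → ℝ => (RR m x)⁻¹ a b) {x | ∀ i, 0 < x i}) ∧
    ∀ r : Fin n → ℝ, (∀ i, 0 < r i) →
      HasFDerivAt (fun x => (RR m x).det) (∑ l, ((RR m r).det * be m r l l) • prj l) r ∧
      (∀ a b, HasFDerivAt (fun x => (RR m x)⁻¹ a b)
        (∑ l, (-(bb m r l a * bb m r l b)) • prj l) r) ∧
      (∀ i a, HasFDerivAt (fun x => bb m x i a) (∑ l, (-(bb m r l a * be m r l i)) • prj l) r) ∧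
      (∀ i j, HasFDerivAt (fun x => be m x i j) (∑ l, (-(be m r i l * be m r l j)) • prj l) r)

/-- WE: derivatives with respect to the weights, second part. -/
def WeStatement : Prop :=
  ∀ (n k : ℕ) (m : Fin n → Fin k → ℝ) (τ : Fin n → ℝ), Spans m →
    ∀ r : Fin n → ℝ, (∀ i, 0 < r i) →
      (∀ i j, HasFDerivAt (fun x => al m τ x i j)
        (∑ l, (-(al m τ r i l * be m r l j + be m r i l * al m τ r l j)) • prj l) r) ∧
      HasFDerivAt (fun x => aa m τ x) (∑ l, (al m τ r l l) • prj l) r ∧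
      (∀ i, HasFDerivAt (fun x => nn m τ x i) (∑ l, (nd m τ r i l / r l) • prj l) r)

/-! ## Part S: calculus of a system -/

/-- Facts on `L`, `r`, `κ`. -/
structure LFacts {n k : ℕ} (S : Sys n k) : Prop where
  Lpos : ∀ y i, 0 < S.L y i
  eL : ∀ y i, S.e i ≤ S.L y i
  rpos : ∀ y i, 0 < S.r y i
  rlow : ∀ y i, S.c i * S.e i ^ S.δ ≤ S.r y i
  kap0 : ∀ y, 0 ≤ S.kap y
  rkap : ∀ y, ∑ i, S.r y i * Gm S.m y i i ≤ (1 + S.δ) * S.kap y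
  /-- `κ` is coercive -/
  coer : ∃ a : ℝ, 0 < a ∧ ∀ y : Pt k, a * ‖y‖ ^ 2 ≤ S.kap y
  sY : ∀ i c, ContDiff ℝ (⊤ : ℕ∞) fun y => Yv S.m y i c
  sL : ∀ i, ContDiff ℝ (⊤ : ℕ∞) fun y => S.L y i
  sr : ∀ i, ContDiff ℝ (⊤ : ℕ∞) fun y => S.r y i
  skap : ContDiff ℝ (⊤ : ℕ∞) S.kap
  dY : ∀ i c y v, fderiv ℝ (fun z => Yv S.m z i c) y v = Yv S.m v i c
  dL : ∀ i y v, fderiv ℝ (fun z => S.L z i) y v = 2 * ∑ c, Yv S.m y i c * Yv S.m v i c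
  dr : ∀ i y v, fderiv ℝ (fun z => S.r z i) y v = S.r y i * S.dl y v i
  dkap : ∀ y v, fderiv ℝ S.kap y v = 2 * ∑ i, S.r y i * ∑ c, Yv S.m y i c * Yv S.m v i c

/-- SL. -/
def SlStatement : Prop := ∀ (n k : ℕ) (S : Sys n k), LFacts S

/-- Facts on the functions of the weights. -/
structure RFacts {n k : ℕ} (S : Sys n k) (τ : Fin n → ℝ) : Prop where
  rhopos : ∀ y, 0 < S.rho y
  srho : ContDiff ℝ (⊤ : ℕ∞) S.rho
  sdet : ContDiff ℝ (⊤ : ℕ∞) fun y => (RR S.m (S.r y)).det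
  sinv : ∀ a b, ContDiff ℝ (⊤ : ℕ∞) fun y => (RR S.m (S.r y))⁻¹ a b
  sbb : ∀ i a, ContDiff ℝ (⊤ : ℕ∞) fun y => bb S.m (S.r y) i a
  sbe : ∀ i j, ContDiff ℝ (⊤ : ℕ∞) fun y => be S.m (S.r y) i j
  sal : ∀ i j, ContDiff ℝ (⊤ : ℕ∞) fun y => al S.m τ (S.r y) i j
  saa : ContDiff ℝ (⊤ : ℕ∞) fun y => aa S.m τ (S.r y)
  snn : ∀ i, ContDiff ℝ (⊤ : ℕ∞) fun y => nn S.m τ (S.r y) i
  drho : ∀ y v, fderiv ℝ S.rho y v = S.rho y * (∑ l, S.r y l * be S.m (S.r y) l l * S.dl y v l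
    - 2 * ∑ i, S.r y i * ∑ c, Yv S.m y i c * Yv S.m v i c)
  dinv : ∀ a b y v, fderiv ℝ (fun z => (RR S.m (S.r z))⁻¹ a b) y v =
    -∑ l, bb S.m (S.r y) l a * bb S.m (S.r y) l b * (S.r y l * S.dl y v l)
  dbb : ∀ i a y v, fderiv ℝ (fun z => bb S.m (S.r z) i a) y v =
    -∑ l, bb S.m (S.r y) l a * be S.m (S.r y) l i * (S.r y l * S.dl y v l)
  dbe : ∀ i j y v, fderiv ℝ (fun z => be S.m (S.r z) i j) y v =
    -∑ l, be S.m (S.r y) i l * be S.m (S.r y) l j * (S.r y l * S.dl y v l)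
  dal : ∀ i j y v, fderiv ℝ (fun z => al S.m τ (S.r z) i j) y v =
    -∑ l, (al S.m τ (S.r y) i l * be S.m (S.r y) l j + be S.m (S.r y) i l * al S.m τ (S.r y) l j) *
      (S.r y l * S.dl y v l)
  daa : ∀ y v, fderiv ℝ (fun z => aa S.m τ (S.r z)) y v =
    ∑ l, S.r y l * al S.m τ (S.r y) l l * S.dl y v l
  dnn : ∀ i y v, fderiv ℝ (fun z => nn S.m τ (S.r z) i) y v =
    ∑ l, nd S.m τ (S.r y) i l * S.dl y v l
  /-- the frame: values at `v = b_i ⊗ e_c` -/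
  Yfr : ∀ y i c l d, Yv S.m (S.fr y i c) l d = if d = c then be S.m (S.r y) l i else 0
  dlfr : ∀ y i c l, S.dl y (S.fr y i c) l =
    2 * S.δ / S.L y l * (be S.m (S.r y) l i * Yv S.m y l c)

/-- SR. -/
def SrStatement : Prop := ∀ (n k : ℕ) (S : Sys n k) (τ : Fin n → ℝ), RFacts S τ

/-- TM: tame functions, closure properties. -/
def TmStatement : Prop :=
  ∀ k : ℕ, (∀ f g : Pt k → ℝ, Tame f → Tame g → Tame fun y => f y + g y) ∧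
    (∀ f g : Pt k → ℝ, Tame f → Tame g → Tame fun y => f y * g y) ∧
    (∀ a : ℝ, Tame fun _ : Pt k => a) ∧
    (∀ f : Pt k → ℝ, ContDiff ℝ 1 f → HasCompactSupport f → Tame f) ∧
    (∀ f g : Pt k → ℝ, PB f → PB g → PB (fun y => f y + g y) ∧ PB (fun y => f y * g y)) ∧
    ∀ (ι : Type) [Fintype ι] (f : ι → Pt k → ℝ), (∀ i, Tame (f i)) → Tame fun y => ∑ i, f i y

/-- TS: the functions of a system are tame. -/
structure TFacts {n k : ℕ} (S : Sys n k) (τ : Fin n → ℝ) : Prop where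
  tY : ∀ i c, Tame fun y => Yv S.m y i c
  tL : ∀ i, Tame fun y => S.L y i
  tLi : ∀ i, Tame fun y => (S.L y i)⁻¹
  tr : ∀ i, Tame fun y => S.r y i
  tbe : ∀ i j, Tame fun y => be S.m (S.r y) i j
  tal : ∀ i j, Tame fun y => al S.m τ (S.r y) i j
  taa : Tame fun y => aa S.m τ (S.r y)
  tnn : ∀ i, Tame fun y => nn S.m τ (S.r y) i
  pbb : ∀ i a, PB fun y => bb S.m (S.r y) i a
  pdet : PB fun y => (RR S.m (S.r y)).det
  pA : ∀ p q, PB fun y => S.A y p q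
  pD : ∀ i c f, Tame f → PB (S.D i c f) ∧ Continuous (S.D i c f)

/-- TS. -/
def TsStatement : Prop := ∀ (n k : ℕ) (S : Sys n k) (τ : Fin n → ℝ), TFacts S τ

/-- IN: integrability. -/
def InStatement : Prop :=
  ∀ (n k : ℕ) (S : Sys n k) (f : Pt k → ℝ), Continuous f → PB f →
    Integrable fun y => f y * S.rho y

/-- IB: the one rule of integration by parts. -/
def IbStatement : Prop :=
  ∀ (n k : ℕ) (S : Sys n k) (i : Fin n) (c : Fin 3) (f : Pt k → ℝ), Tame f →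
    ∫ y, S.D i c f y * S.rho y = 2 * ∫ y, Yv S.m y i c * f y * S.rho y

/-! ## Part E: the inequalities -/

/-- E1. -/
def E1Statement : Prop :=
  ∀ (n k : ℕ) (S : Sys n k) (τ : Fin n → ℝ),
    2 * ∫ y, S.Yd τ y * S.rho y ≤
      -(S.δ * ∫ y, S.X1d τ y * S.rho y) + S.δ ^ 2 * ∫ y, S.Sd τ y * S.rho y

/-- E2. -/
def E2Statement : Prop :=
  ∀ (n k : ℕ) (S : Sys n k) (τ : Fin n → ℝ),
    (1 - 2 * S.δ) * ∫ y, S.Sd τ y * S.rho y ≤ 4 * ∫ y, tt S.m τ (S.r y) * S.rho y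

/-- E3. -/
def E3Statement : Prop :=
  ∀ (n k : ℕ) (S : Sys n k) (τ : Fin n → ℝ),
    (∫ y, S.rho y) * (∫ y, aa S.m τ (S.r y) ^ 2 * S.rho y) -
        (∫ y, aa S.m τ (S.r y) * S.rho y) ^ 2 ≤
      (∫ y, S.rho y) * (4 * S.δ ^ 2 * ∫ y, S.X1d τ y * S.rho y)

/-- EF: the final inequality. -/
def EfStatement : Prop :=
  ∀ (n k : ℕ) (S : Sys n k) (τ : Fin n → ℝ),
    (∫ y, S.rho y) * (∫ y, (aa S.m τ (S.r y) ^ 2 - 2 * tt S.m τ (S.r y) + 2 * S.Yd τ y) *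
      S.rho y) ≤ (∫ y, aa S.m τ (S.r y) * S.rho y) ^ 2

/-! ## Part P: the Poincaré inequality -/

/-- FB: Bochner's identity for vector fields with compact support. -/
def FbStatement : Prop :=
  ∀ (ι : Type) [Fintype ι] [DecidableEq ι] (w : (ι → ℝ) → ℝ) (h : (ι → ℝ) → ι → ℝ),
    ContDiff ℝ (⊤ : ℕ∞) w → (∀ p, Tst fun y => h y p) →
    ∫ y, ((∑ p, pd p (fun z => Real.exp (w z) * h z p) y) / Real.exp (w y)) ^ 2 * Real.exp (w y) =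
      ∫ y, ((∑ p, ∑ q, pd p (fun z => h z q) y * pd q (fun z => h z p) y) -
        ∑ p, ∑ q, h y p * h y q * pd p (fun z => pd q w z) y) * Real.exp (w y)

/-- HE: the Hessian of `log ρ`. -/
def HeStatement : Prop :=
  ∀ (n k : ℕ) (S : Sys n k) (y v : Pt k),
    (∑ p, ∑ q, v p * v q * pd p (fun z => pd q (fun x => Real.log (S.rho x)) z) y) ≤
      -∑ l, (2 * S.r y l * Gm S.m v l l
        + 4 * S.δ * S.r y l / S.L y l * (∑ c, Yv S.m y l c * Yv S.m v l c) ^ 2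
        - 2 * S.δ * (S.r y l * be S.m (S.r y) l l) / S.L y l * Gm S.m v l l
        + 4 * S.δ * (1 - S.δ) * (S.r y l * be S.m (S.r y) l l) / S.L y l ^ 2 *
          (∑ c, Yv S.m y l c * Yv S.m v l c) ^ 2)

/-- The frame components of `Dh`, `h = A ∇ψ`. -/
noncomputable def Sys.X {n k : ℕ} (S : Sys n k) (ψ : Pt k → ℝ) (y : Pt k) (i : Fin n) (c : Fin 3)
    (j : Fin n) (d : Fin 3) : ℝ :=
  S.D i c (fun z => Yv S.m (S.hf ψ z) j d) y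

/-- AK: `tr ((Dh)^2)` in the frame, and the antisymmetric part of `Dh`. -/
def AkStatement : Prop :=
  ∀ (n k : ℕ) (S : Sys n k) (ψ : Pt k → ℝ), ContDiff ℝ (⊤ : ℕ∞) ψ → ∀ y : Pt k,
    (∑ p, ∑ q, pd p (fun z => S.hf ψ z q) y * pd q (fun z => S.hf ψ z p) y =
      ∑ i, ∑ c, ∑ j, ∑ d, S.r y i * S.r y j * (S.X ψ y i c j d * S.X ψ y j d i c)) ∧
    ∀ i c j d, S.X ψ y i c j d - S.X ψ y j d i c =
      ∑ l, 2 * S.δ * S.r y l / S.L y l * be S.m (S.r y) l i * be S.m (S.r y) l j *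
        (Yv S.m y l d * Yv S.m (S.hf ψ y) l c - Yv S.m y l c * Yv S.m (S.hf ψ y) l d)

/-- AL: the pointwise inequality for `tr ((Dh)^2)`, `h = A ∇ψ`. -/
def AlStatement : Prop :=
  ∀ (n k : ℕ) (S : Sys n k) (ψ : Pt k → ℝ), ContDiff ℝ (⊤ : ℕ∞) ψ → ∀ y : Pt k,
    (∑ j, ∑ d, ∑ i, ∑ c, S.r y j * (S.r y i * S.X ψ y i c j d ^ 2)) -
      4 * S.δ ^ 2 * ∑ l, (S.r y l * be S.m (S.r y) l l) / S.L y l ^ 2 *
        (Gm S.m y l l * Gm S.m (S.hf ψ y) l l -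
          (∑ c, Yv S.m y l c * Yv S.m (S.hf ψ y) l c) ^ 2) ≤
    ∑ p, ∑ q, pd p (fun z => S.hf ψ z q) y * pd q (fun z => S.hf ψ z p) y

/-- HA: the vector Hardy inequality. -/
def HaStatement : Prop :=
  ∀ (n k : ℕ) (S : Sys n k) (j : Fin n) (H : Fin 3 → Pt k → ℝ),
    (∀ d, ContDiff ℝ 1 (H d) ∧ HasCompactSupport (H d)) →
    ∫ y, (S.r y j * be S.m (S.r y) j j / S.L y j * (∑ d, H d y ^ 2) *
          (3 / 2 - (1 - S.δ) * (Gm S.m y j j / S.L y j) + 6 / 5 * S.δ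
            - (1 / 4 + (3 / 5 * S.δ) ^ 2) * (Gm S.m y j j / S.L y j))
        - S.r y j * (Gm S.m y j j / S.L y j) * (∑ d, H d y ^ 2)
        - 12 / 5 * S.δ * (S.r y j / S.L y j) * (∑ d, Yv S.m y j d * H d y) ^ 2
        - (12 / 5 * S.δ * (1 - S.δ) + 6 / 5 * S.δ + 5 * (3 / 5 * S.δ) ^ 2) *
          (S.r y j * be S.m (S.r y) j j / S.L y j ^ 2) * (∑ d, Yv S.m y j d * H d y) ^ 2) *
        S.rho y ≤
      ∫ y, (∑ d, ∑ i, ∑ c, S.r y j * (S.r y i * S.D i c (H d) y ^ 2)) * S.rho y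

/-- BO: the inequality of Bochner type. -/
def BoStatement : Prop :=
  ∀ (n k : ℕ) (S : Sys n k) (ψ : Pt k → ℝ), Tst ψ →
    ∫ y, Gam S.A ψ ψ y * S.rho y ≤ ∫ y, Lop S.rho S.A ψ y ^ 2 * S.rho y

/-- DI: the diffusion of a system has good cutoffs. -/
def DiStatement : Prop := ∀ (n k : ℕ) (S : Sys n k), Diff S.rho S.A

/-- PO: the Poincaré inequality. -/
def PoStatement : Prop :=
  ∀ (n k : ℕ) (S : Sys n k) (f : Pt k → ℝ), Tame f →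
    (∫ y, S.rho y) * (∫ y, f y ^ 2 * S.rho y) - (∫ y, f y * S.rho y) ^ 2 ≤
      (∫ y, S.rho y) * ∫ y, Gam S.A f f y * S.rho y

/-! ### General part: from Bochner to Poincaré -/

/-- LI: the Liouville theorem. -/
def LiStatement : Prop :=
  ∀ (ι : Type) [Fintype ι] [DecidableEq ι] (ρ : (ι → ℝ) → ℝ) (A : (ι → ℝ) → ι → ι → ℝ),
    Diff ρ A → ∀ g : (ι → ℝ) → ℝ, AEStronglyMeasurable g volume →
      Integrable (fun y => g y ^ 2 * ρ y) →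
      (∀ ψ, Tst ψ → ∫ y, g y * Lop ρ A ψ y * ρ y = 0) → ∃ c : ℝ, ∀ᵐ y, g y = c

/-- PA: the abstract Poincaré inequality. -/
def PaStatement : Prop :=
  ∀ (ι : Type) [Fintype ι] [DecidableEq ι] (ρ : (ι → ℝ) → ℝ) (A : (ι → ℝ) → ι → ι → ℝ),
    Diff ρ A →
    (∀ ψ, Tst ψ → ∫ y, Gam A ψ ψ y * ρ y ≤ ∫ y, Lop ρ A ψ y ^ 2 * ρ y) →
    ∀ f : (ι → ℝ) → ℝ, ContDiff ℝ 1 f → Integrable (fun y => f y ^ 2 * ρ y) →
      Integrable (fun y => Gam A f f y * ρ y) →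
      (∫ y, ρ y) * (∫ y, f y ^ 2 * ρ y) - (∫ y, f y * ρ y) ^ 2 ≤
        (∫ y, ρ y) * ∫ y, Gam A f f y * ρ y

section moll

variable {ι : Type} [Fintype ι] [DecidableEq ι]

/-- A mollifier. -/
structure Mol (φ : (ι → ℝ) → ℝ) : Prop where
  smooth : ContDiff ℝ (⊤ : ℕ∞) φ
  supp : ∀ x, 1 < ‖x‖ → φ x = 0
  nonneg : ∀ x, 0 ≤ φ x
  one : ∫ x, φ x = 1

/-- Square integrable with bounded support. -/
structure L2c (g : (ι → ℝ) → ℝ) : Prop where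
  meas : AEStronglyMeasurable g volume
  sq : Integrable fun x => g x ^ 2
  supp : ∃ T : ℝ, ∀ x, T < ‖x‖ → g x = 0

/-- `g_ε(x) = ∫ g(x - ε w) φ(w) dw`. -/
noncomputable def moll (φ g : (ι → ℝ) → ℝ) (ε : ℝ) (x : ι → ℝ) : ℝ :=
  ∫ w, g (x - ε • w) * φ w

/-- `∂_p g_ε`. -/
noncomputable def mollD (φ g : (ι → ℝ) → ℝ) (ε : ℝ) (p : ι) (x : ι → ℝ) : ℝ :=
  ε⁻¹ * ∫ w, g (x - ε • w) * pd p φ w

/-- The mollification of `∑ C p q ∂_p g`. -/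
noncomputable def Th (C : (ι → ℝ) → ι → ι → ℝ) (φ g : (ι → ℝ) → ℝ) (ε : ℝ) (q : ι)
    (x : ι → ℝ) : ℝ :=
  ∑ p, ((ε⁻¹ * ∫ w, g (x - ε • w) * C (x - ε • w) p q * pd p φ w) -
    ∫ w, g (x - ε • w) * pd p (fun z => C z p q) (x - ε • w) * φ w)

end moll

/-- TR: translations are continuous in `L²`. -/
def TrStatement : Prop :=
  ∀ (ι : Type) [Fintype ι] (g : (ι → ℝ) → ℝ), AEStronglyMeasurable g volume →
    Integrable (fun x => g x ^ 2) →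
    Tendsto (fun v : ι → ℝ => ∫ x, (g (x - v) - g x) ^ 2) (𝓝 0) (𝓝 0)

/-- MO: mollification. -/
def MoStatement : Prop :=
  ∀ (ι : Type) [Fintype ι] [DecidableEq ι] (φ g : (ι → ℝ) → ℝ), Mol φ → L2c g →
    (∀ ε : ℝ, 0 < ε → Tst (moll φ g ε) ∧ ∀ p x, pd p (moll φ g ε) x = mollD φ g ε p x) ∧
    Tendsto (fun ε : ℝ => ∫ x, (moll φ g ε x - g x) ^ 2) (𝓝[>] 0) (𝓝 0)

/-- FR: Friedrichs' lemma. -/
def FrStatement : Prop :=
  ∀ (ι : Type) [Fintype ι] [DecidableEq ι] (φ g : (ι → ℝ) → ℝ) (C : (ι → ℝ) → ι → ι → ℝ),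
    Mol φ → L2c g → (∀ p q, ContDiff ℝ (⊤ : ℕ∞) fun y => C y p q) → ∀ (q : ι) (T : ℝ),
      Tendsto (fun ε : ℝ => ∫ x in {x : ι → ℝ | ‖x‖ ≤ T},
        (Th C φ g ε q x - ∑ p, C x p q * mollD φ g ε p x) ^ 2) (𝓝[>] 0) (𝓝 0)

/-- L1: the mollified equation. -/
def L1Statement : Prop :=
  ∀ (ι : Type) [Fintype ι] [DecidableEq ι] (φ g : (ι → ℝ) → ℝ) (C : (ι → ℝ) → ι → ι → ℝ) (T : ℝ),
    Mol φ → L2c g → (∀ p q, ContDiff ℝ (⊤ : ℕ∞) fun y => C y p q) →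
    (∀ ψ, Tst ψ → (∀ x, T + 1 < ‖x‖ → ψ x = 0) →
      ∫ x, g x * ∑ p, pd p (fun z => ∑ q, C z p q * pd q ψ z) x = 0) →
    ∀ ε : ℝ, 0 < ε → ε ≤ 1 → ∀ u, Tst u → (∀ x, T < ‖x‖ → u x = 0) →
      ∫ x, ∑ q, Th C φ g ε q x * pd q u x = 0

/-- L2: the energy estimate. -/
def L2Statement : Prop :=
  ∀ (ι : Type) [Fintype ι] [DecidableEq ι] (ρ : (ι → ℝ) → ℝ) (A : (ι → ℝ) → ι → ι → ℝ),
    Diff ρ A → ∀ g : (ι → ℝ) → ℝ, AEStronglyMeasurable g volume →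
      Integrable (fun y => g y ^ 2 * ρ y) →
      (∀ ψ, Tst ψ → ∫ y, g y * Lop ρ A ψ y * ρ y = 0) → ∀ φ, Mol φ → ∀ T : ℝ,
        Tendsto (fun ε : ℝ => ∫ x in {x : ι → ℝ | ‖x‖ ≤ T},
          ∑ p, mollD φ (fun z => if ‖z‖ ≤ T + 1 then g z else 0) ε p x ^ 2) (𝓝[>] 0) (𝓝 0)

/-- L3: from small gradients to a constant. -/
def L3Statement : Prop :=
  ∀ (ι : Type) [Fintype ι] [DecidableEq ι] (g φ : (ι → ℝ) → ℝ), AEStronglyMeasurable g volume →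
    (∀ T : ℝ, L2c fun z => if ‖z‖ ≤ T then g z else 0) → Mol φ →
    (∀ T : ℝ, Tendsto (fun ε : ℝ => ∫ x in {x : ι → ℝ | ‖x‖ ≤ T},
          ∑ p, mollD φ (fun z => if ‖z‖ ≤ T + 1 then g z else 0) ε p x ^ 2) (𝓝[>] 0) (𝓝 0)) →
    ∃ c : ℝ, ∀ᵐ y, g y = c

/-! ## Part K: the kernel identity -/

/-- KM: algebra of `mix`. -/
def KmStatement : Prop :=
  ∀ (n k : ℕ) (m : Fin n → Fin k → ℝ),
    (∀ v r : Fin n → ℝ, mix m v (fun i => r i * v i) = (RR m r).det * ∏ i, v i) ∧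
    ∀ (M : ℕ) (C E : Fin n → Fin M → ℝ) (s : Fin M → ℝ),
      mix m (fun i => ∑ j, C i j * E i j) (fun i => ∑ j, C i j * (s j * E i j)) =
        ∑ J : Fin n → Fin M, (∏ i, C i (J i)) * ((RR m fun i => s (J i)).det * ∏ i, E i (J i))

/-- KW: approximation of the kernels by exponential sums, all `i : Fin n` at the same time. -/
def KwStatement : Prop :=
  ∀ (n : ℕ) (c e : Fin n → ℝ) (δ : ℝ), (∀ i, 0 < c i) → (∀ i, 0 < e i) → 0 < δ → δ ≤ 1 / 4 →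
    ∃ (M : ℕ → ℕ) (C : (N : ℕ) → Fin n → Fin (M N) → ℝ) (B : ℝ),
      (∀ N i (x : ℝ), 0 ≤ x →
        |∑ j : Fin (M N), C N i j * Real.exp (-((((j : ℕ) : ℝ) + 1) * x))| ≤ B * Real.exp (-x) ∧
        |∑ j : Fin (M N), C N i j * ((((j : ℕ) : ℝ) + 1) *
          Real.exp (-((((j : ℕ) : ℝ) + 1) * x)))| ≤ B * Real.exp (-x)) ∧
      ∀ i (x : ℝ), 0 ≤ x →
        Tendsto (fun N => ∑ j : Fin (M N), C N i j * Real.exp (-((((j : ℕ) : ℝ) + 1) * x))) atTop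
          (𝓝 (Real.exp (-(c i / (1 + δ) * (x + e i) ^ (1 + δ))))) ∧
        Tendsto (fun N => ∑ j : Fin (M N), C N i j * ((((j : ℕ) : ℝ) + 1) *
            Real.exp (-((((j : ℕ) : ℝ) + 1) * x)))) atTop
          (𝓝 (c i * (x + e i) ^ δ * Real.exp (-(c i / (1 + δ) * (x + e i) ^ (1 + δ)))))

/-- KG: Gaussian kernels. -/
def KgStatement : Prop :=
  ∀ (n k : ℕ) (m : Fin n → Fin k → ℝ) (s : Fin n → ℝ), Spans m → (∀ i, 0 < s i) →
    (Integrable fun y : Pt k => Real.exp (-(∑ i, s i * Gm m y i i))) ∧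
    (Integrable fun x : Fin k → ℝ => Real.exp (-(∑ i, s i * (m i ⬝ᵥ x) ^ 2))) ∧
    ∫ y : Pt k, (RR m s).det * Real.exp (-(∑ i, s i * Gm m y i i)) =
      gint (1 : Matrix (Fin k) (Fin k) ℝ) ^ 2 *
        ∫ x : Fin k → ℝ, Real.exp (-(∑ i, s i * (m i ⬝ᵥ x) ^ 2))

/-- KL: the kernel identity. -/
def KlStatement : Prop :=
  ∀ (n k : ℕ) (S : Sys n k),
    ∫ y, S.rho y = gint (1 : Matrix (Fin k) (Fin k) ℝ) ^ 2 * F0 S.m S.c S.e S.δ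

/-! ## Part D: the derivatives along a line -/

/-- DU: differentiation under the integral sign. -/
def DuStatement : Prop :=
  ∀ (n k : ℕ) (m : Fin n → Fin k → ℝ) (hm : Spans m) (δ : ℝ) (h0 : 0 < δ) (h1 : δ ≤ 1 / 4)
    (η : ℝ) (hη : 0 < η) (w τ : Fin n → ℝ) (u : ℝ),
    let S := fam m hm δ h0 h1 η hη w τ
    HasDerivAt (fun u => ∫ y, (S u).rho y)
      (∫ y, (∑ i, τ i * (S u).r y i * (be m ((S u).r y) i i *
        (1 + δ * (Gm m y i i / (S u).L y i)) - Gm m y i i)) * (S u).rho y) u ∧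
    HasDerivAt (fun u => ∫ y, aa m τ ((S u).r y) * (S u).rho y)
      (∫ y, ((∑ i, τ i * (S u).r y i * al m τ ((S u).r y) i i *
            (1 + δ * (Gm m y i i / (S u).L y i))) +
          aa m τ ((S u).r y) * ∑ i, τ i * (S u).r y i * (be m ((S u).r y) i i *
            (1 + δ * (Gm m y i i / (S u).L y i)) - Gm m y i i)) * (S u).rho y) u

/-- DV: the same derivatives after integration by parts. -/
def DvStatement : Prop :=
  ∀ (n k : ℕ) (m : Fin n → Fin k → ℝ) (hm : Spans m) (δ : ℝ) (h0 : 0 < δ) (h1 : δ ≤ 1 / 4)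
    (η : ℝ) (hη : 0 < η) (w τ : Fin n → ℝ) (u : ℝ),
    let S := fam m hm δ h0 h1 η hη w τ
    HasDerivAt (fun u => ∫ y, (S u).rho y) (-(1 / 2 * ∫ y, aa m τ ((S u).r y) * (S u).rho y)) u ∧
    HasDerivAt (fun u => ∫ y, aa m τ ((S u).r y) * (S u).rho y)
      (∫ y, (tt m τ ((S u).r y) - (S u).Yd τ y - 1 / 2 * aa m τ ((S u).r y) ^ 2) * (S u).rho y) u

/-- DC: concavity of the logarithm along lines. -/
def DcStatement : Prop :=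
  ∀ (n k : ℕ) (m : Fin n → Fin k → ℝ) (_ : Spans m) (δ : ℝ) (_ : 0 < δ) (_ : δ ≤ 1 / 4)
    (η : ℝ) (_ : 0 < η) (w τ : Fin n → ℝ),
    (∀ u, 0 < F0 m (fun i => (1 + δ) * Real.exp ((1 + δ) * (w i + u * τ i)))
      (fun i => η * Real.exp (-(w i + u * τ i))) δ) ∧
    ConcaveOn ℝ univ fun u : ℝ =>
      Real.log (F0 m (fun i => (1 + δ) * Real.exp ((1 + δ) * (w i + u * τ i)))
        (fun i => η * Real.exp (-(w i + u * τ i))) δ)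

/-- LM: log-concavity of the integrals `GG`, exponents `1 < α ≤ 5/4`. -/
def LmStatement : Prop :=
  ∀ (n k : ℕ) (a : Fin n → Fin k → ℝ) (α : ℝ), 1 < α → α ≤ 5 / 4 → Spans a → Intg a α →
    ConcaveOn ℝ univ fun s : Fin n → ℝ => Real.log (GG a α (fun i => Real.exp (s i)))

/-- FI: the final statement. -/
def FiStatement : Prop :=
  ∀ (p : ℝ), 2 < p → p ≤ 5 / 2 → ∀ (n k : ℕ), 1 ≤ k →
    ∀ (H : Submodule ℝ (EuclideanSpace ℝ (Fin n))), Module.finrank ℝ H = k →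
    (∀ t : Fin n → ℝ, 0 < sectionVol p H t) ∧
      ∀ s t : Fin n → ℝ, ∀ l : ℝ, 0 ≤ l → l ≤ 1 →
        sectionVol p H s ^ l * sectionVol p H t ^ (1 - l) ≤
          sectionVol p H (l • s + (1 - l) • t)

end Pool.Agent.Lib.MP_fa837f_gt.P2
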