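import Mathlib
import Pool.Agent.Lib.MP_fa837f_gt.Defs

/-!
Project P2 (exponents `2 < p ≤ 5/2`): definitions.  See `Paper.md`.
-/

set_option autoImplicit false

open MeasureTheory Matrix Set Filter Topology

namespace Pool.Agent.Lib.MP_fa837f_gt.P2

variable {n k : ℕ}

/-! ### Weights: functions of `r : Fin n → ℝ` -/

/-- The vectors `m i` span `ℝ^k`. -/
def Spans (m : Fin n → Fin k → ℝ) : Prop := ∀ x : Fin k → ℝ, (∀ i, m i ⬝ᵥ x = 0) → x = 0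

/-- `R(r) = ∑ r i • m i (m i)ᵀ`. -/
noncomputable def RR (m : Fin n → Fin k → ℝ) (r : Fin n → ℝ) : Matrix (Fin k) (Fin k) ℝ :=
  ∑ i, r i • vecMulVec (m i) (m i)

/-- `b i = R⁻¹ (m i)`. -/
noncomputable def bb (m : Fin n → Fin k → ℝ) (r : Fin n → ℝ) (i : Fin n) : Fin k → ℝ :=
  (RR m r)⁻¹ *ᵥ m i

/-- `β i j = ⟨m i, R⁻¹ (m j)⟩`. -/
noncomputable def be (m : Fin n → Fin k → ℝ) (r : Fin n → ℝ) (i j : Fin n) : ℝ :=
  m i ⬝ᵥ bb m r j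

/-- `α i j = τ i β i j - ∑ β i l τ l r l β l j`. -/
noncomputable def al (m : Fin n → Fin k → ℝ) (τ r : Fin n → ℝ) (i j : Fin n) : ℝ :=
  τ i * be m r i j - ∑ l, be m r i l * (τ l * r l) * be m r l j

/-- `a = ∑ τ i r i β i i`. -/
noncomputable def aa (m : Fin n → Fin k → ℝ) (τ r : Fin n → ℝ) : ℝ :=
  ∑ i, τ i * r i * be m r i i

/-- `t = ∑ τ i r i α i i = ∑ r i r j (α i j)^2`. -/
noncomputable def tt (m : Fin n → Fin k → ℝ) (τ r : Fin n → ℝ) : ℝ :=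
  ∑ i, τ i * r i * al m τ r i i

/-- `N i = ∑ j, r i r j ((α i j)^2 + (α j i)^2)`. -/
noncomputable def nn (m : Fin n → Fin k → ℝ) (τ r : Fin n → ℝ) (i : Fin n) : ℝ :=
  ∑ j, r i * r j * (al m τ r i j ^ 2 + al m τ r j i ^ 2)

/-- `r l ∂ N i / ∂ r l`. -/
noncomputable def nd (m : Fin n → Fin k → ℝ) (τ r : Fin n → ℝ) (i l : Fin n) : ℝ :=
  (if i = l then nn m τ r i else 0) + r i * r l * (al m τ r l i ^ 2 - al m τ r i l ^ 2)
    - 2 * (r i * r l * be m r i l *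
        ∑ j, r j * (al m τ r i j * al m τ r l j + al m τ r j i * al m τ r j l))

/-! ### Configurations: three columns in `ℝ^k` -/

/-- Points `y`: `k × 3` matrices. -/
abbrev Pt (k : ℕ) : Type := Fin k × Fin 3 → ℝ

/-- `(y_i)_c = ∑ a, m i a * y (a, c)`. -/
def Yv (m : Fin n → Fin k → ℝ) (y : Pt k) (i : Fin n) (c : Fin 3) : ℝ :=
  ∑ a, m i a * y (a, c)

/-- `⟨y_i, y_j⟩`. -/
def Gm (m : Fin n → Fin k → ℝ) (y : Pt k) (i j : Fin n) : ℝ :=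
  ∑ c, Yv m y i c * Yv m y j c

/-- The data: vectors `m i`, constants `c i, e i > 0`, the exponent `δ`.
The kernels are `exp (- c i / (1 + δ) * (λ + e i) ^ (1 + δ))`. -/
structure Sys (n k : ℕ) where
  m : Fin n → Fin k → ℝ
  c : Fin n → ℝ
  e : Fin n → ℝ
  δ : ℝ
  hm : Spans m
  hc : ∀ i, 0 < c i
  he : ∀ i, 0 < e i
  hδ0 : 0 < δ
  hδ1 : δ ≤ 1 / 4

namespace Sys

variable (S : Sys n k)

/-- `L i = |y_i|^2 + e i`. -/
noncomputable def L (y : Pt k) (i : Fin n) : ℝ := Gm S.m y i i + S.e i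

/-- `r i = c i (L i)^δ`. -/
noncomputable def r (y : Pt k) (i : Fin n) : ℝ := S.c i * S.L y i ^ S.δ

/-- `κ = ∑ c i / (1 + δ) (L i)^(1 + δ)`. -/
noncomputable def kap (y : Pt k) : ℝ := ∑ i, S.c i / (1 + S.δ) * S.L y i ^ (1 + S.δ)

/-- The density `ρ = det R exp (- κ)`. -/
noncomputable def rho (y : Pt k) : ℝ := (RR S.m (S.r y)).det * Real.exp (-(S.kap y))

/-- The vector `b_i ⊗ e_c`. -/
noncomputable def fr (y : Pt k) (i : Fin n) (c : Fin 3) : Pt k :=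
  fun p => if p.2 = c then bb S.m (S.r y) i p.1 else 0

/-- The derivative along `b_i ⊗ e_c`. -/
noncomputable def D (i : Fin n) (c : Fin 3) (f : Pt k → ℝ) (y : Pt k) : ℝ :=
  fderiv ℝ f y (S.fr y i c)

/-- `d (log r l)` in the direction `v`. -/
noncomputable def dl (y v : Pt k) (l : Fin n) : ℝ :=
  2 * S.δ / S.L y l * ∑ c, Yv S.m y l c * Yv S.m v l c

/-- The density of `Y`. -/
noncomputable def Yd (τ : Fin n → ℝ) (y : Pt k) : ℝ :=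
  -(S.δ * ∑ i, S.r y i * al S.m τ (S.r y) i i *
      (∑ j, al S.m τ (S.r y) i j * S.r y j * Gm S.m y j i) / S.L y i)

/-- The density of `X₁`. -/
noncomputable def X1d (τ : Fin n → ℝ) (y : Pt k) : ℝ :=
  ∑ i, S.r y i * al S.m τ (S.r y) i i ^ 2 / S.L y i

/-- The density of `S`. -/
noncomputable def Sd (τ : Fin n → ℝ) (y : Pt k) : ℝ :=
  ∑ i, be S.m (S.r y) i i / S.L y i * nn S.m τ (S.r y) i

/-- The coefficients `A = R⁻¹ ⊗ 1`. -/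
noncomputable def A (y : Pt k) (p q : Fin k × Fin 3) : ℝ :=
  if p.2 = q.2 then (RR S.m (S.r y))⁻¹ p.1 q.1 else 0

/-- The vector field `h = A ∇ψ`. -/
noncomputable def hf (ψ : Pt k → ℝ) (y : Pt k) : Pt k :=
  fun p => ∑ q, S.A y p q * fderiv ℝ ψ y (Pi.single q 1)

end Sys

/-! ### Test functions -/

/-- Polynomially bounded. -/
def PB {k : ℕ} (f : Pt k → ℝ) : Prop := ∃ C : ℝ, ∃ N : ℕ, ∀ y, |f y| ≤ C * (1 + ‖y‖) ^ N

/-- `C¹` with polynomial growth. -/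
structure Tame {k : ℕ} (f : Pt k → ℝ) : Prop where
  smooth : ContDiff ℝ 1 f
  bd : PB f
  dbd : ∀ p : Fin k × Fin 3, PB fun y => fderiv ℝ f y (Pi.single p 1)

/-! ### General diffusion operators in `ι → ℝ` -/

section gen

variable {ι : Type} [Fintype ι] [DecidableEq ι]

/-- `C_c^∞`. -/
def Tst (ψ : (ι → ℝ) → ℝ) : Prop := ContDiff ℝ (⊤ : ℕ∞) ψ ∧ HasCompactSupport ψ

/-- Partial derivative. -/
noncomputable def pd (p : ι) (f : (ι → ℝ) → ℝ) (y : ι → ℝ) : ℝ := fderiv ℝ f y (Pi.single p 1)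

/-- `Γ(f, g) = ∑ A p q ∂_p f ∂_q g`. -/
noncomputable def Gam (A : (ι → ℝ) → ι → ι → ℝ) (f g : (ι → ℝ) → ℝ) (y : ι → ℝ) : ℝ :=
  ∑ p, ∑ q, A y p q * pd p f y * pd q g y

/-- `L ψ = ρ⁻¹ ∑ ∂_p (ρ ∑ A p q ∂_q ψ)`. -/
noncomputable def Lop (ρ : (ι → ℝ) → ℝ) (A : (ι → ℝ) → ι → ι → ℝ) (ψ : (ι → ℝ) → ℝ)
    (y : ι → ℝ) : ℝ :=
  (∑ p, pd p (fun z => ρ z * ∑ q, A z p q * pd q ψ z) y) / ρ y

/-- The data of a symmetric diffusion with finite measure and good cutoff functions. -/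
structure Diff (ρ : (ι → ℝ) → ℝ) (A : (ι → ℝ) → ι → ι → ℝ) : Prop where
  sρ : ContDiff ℝ (⊤ : ℕ∞) ρ
  pos : ∀ y, 0 < ρ y
  int : Integrable ρ
  sA : ∀ p q, ContDiff ℝ (⊤ : ℕ∞) fun y => A y p q
  symm : ∀ y p q, A y p q = A y q p
  posdef : ∀ y (v : ι → ℝ), v ≠ 0 → 0 < ∑ p, ∑ q, A y p q * v p * v q
  cut : ∀ ε : ℝ, 0 < ε → ∀ T : ℝ, ∃ χ : (ι → ℝ) → ℝ, Tst χ ∧ (∀ y, 0 ≤ χ y ∧ χ y ≤ 1) ∧
    (∀ y, ‖y‖ ≤ T → χ y = 1) ∧ ∀ y, Gam A χ χ y ≤ ε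

end gen

/-! ### Kernels -/

/-- The multi-affine form of `det R`: `mix m v w = det (R (w / v)) ∏ v`. -/
noncomputable def mix (m : Fin n → Fin k → ℝ) (v w : Fin n → ℝ) : ℝ :=
  ∑ f : Fin k → Fin n, (∏ a, m (f a) a) * (Matrix.of fun a b => m (f a) b).det *
    ∏ i, if i ∈ Set.range f then w i else v i

/-- The one column integral. -/
noncomputable def F0 (m : Fin n → Fin k → ℝ) (c e : Fin n → ℝ) (δ : ℝ) : ℝ :=
  ∫ x : Fin k → ℝ, Real.exp (-(∑ i, c i / (1 + δ) * ((m i ⬝ᵥ x) ^ 2 + e i) ^ (1 + δ)))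

/-- The family of systems along the line `w + u τ`. -/
noncomputable def fam (m : Fin n → Fin k → ℝ) (hm : Spans m) (δ : ℝ) (h0 : 0 < δ) (h1 : δ ≤ 1 / 4)
    (η : ℝ) (hη : 0 < η) (w τ : Fin n → ℝ) (u : ℝ) : Sys n k where
  m := m
  c := fun i => (1 + δ) * Real.exp ((1 + δ) * (w i + u * τ i))
  e := fun i => η * Real.exp (-(w i + u * τ i))
  δ := δ
  hm := hm
  hc := fun i => by positivity
  he := fun i => by positivity
  hδ0 := h0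
  hδ1 := h1

end Pool.Agent.Lib.MP_fa837f_gt.P2
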