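import Pool.Agent.Lib.MP_fa837f_gt.P2.H28.All

/-!
Project P2: the theorem for the exponents `2 < p ≤ 5/2`.
-/

set_option autoImplicit false

namespace Pool.Agent.Lib.MP_fa837f_gt.P2

/-- Log-concavity of the sections of rescaled `ℓ_p` balls, `2 < p ≤ 5/2`. -/
theorem final : FiStatement := H28.all_st

end Pool.Agent.Lib.MP_fa837f_gt.P2
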